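import Mathlib
import Pool.Agent.S12159

/-!
# Every interval of integers with one point removed tiles `ℤ³`
-/

set_option autoImplicit false

namespace Pool.Agent.Results.MP_3bfddb_co.AllOnePointRemoved

/-- `f` is an isometry of `ℤ^d`: a composition of a permutation of the coordinates, sign changes of
coordinates and a translation. -/
def IsIsom (d : ℕ) (f : (Fin d → ℤ) → (Fin d → ℤ)) : Prop :=
  ∃ (σ : Equiv.Perm (Fin d)) (ε : Fin d → ℤ) (v : Fin d → ℤ),
    (∀ i, ε i = 1 ∨ ε i = -1) ∧ ∀ x i, f x i = ε i * x (σ i) + v i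

/-- The identification of `ℤ` with the first coordinate axis of `ℤ^d`. -/
def axis (d : ℕ) [NeZero d] (t : ℤ) : Fin d → ℤ := Pi.single 0 t

/-- `S` is a copy of `T` in `ℤ^d`: the image of `T` (put on the first axis) under an isometry. -/
def IsCopy (d : ℕ) [NeZero d] (T : Set ℤ) (S : Set (Fin d → ℤ)) : Prop :=
  ∃ f, IsIsom d f ∧ S = f '' (axis d '' T)

/-- `T` tiles `ℤ^d`: `ℤ^d` is a disjoint union of copies of `T`. -/
def Tiles (d : ℕ) [NeZero d] (T : Set ℤ) : Prop :=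
  ∃ F : Set (Set (Fin d → ℤ)), (∀ S ∈ F, IsCopy d T S) ∧
    F.PairwiseDisjoint id ∧ ⋃₀ F = Set.univ

/-- the copy of `T` at `v` with sign `e` in the direction `j` -/
theorem copy_of (T : Set ℤ) (v : Fin 3 → ℤ) (e : ℤ) (he : e = 1 ∨ e = -1) (j : Fin 3) (a : ℤ) :
    IsCopy 3 T {x | ∃ t ∈ T, x = v + (e * (t - a)) • (Pi.single j (1 : ℤ) : Fin 3 → ℤ)} := by
  refine ⟨fun x i => (if i = j then e else 1) * x (Equiv.swap 0 j i) + (v i - (if i = j then e * a else 0)), ⟨Equiv.swap 0 j,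
    fun i => if i = j then e else 1, fun i => v i - (if i = j then e * a else 0), ?_, fun x i => rfl⟩, ?_⟩
  · intro i
    by_cases h : i = j
    · simpa [h] using he
    · simp [h]
  · have key : ∀ t : ℤ, (fun i => (if i = j then e else 1) * (axis 3 t) (Equiv.swap 0 j i) +
        (v i - (if i = j then e * a else 0))) = v + (e * (t - a)) • (Pi.single j (1 : ℤ) : Fin 3 → ℤ) := by
      intro t
      funext i
      by_cases h : i = j
      · subst h
        simp [axis]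
        ring
      · have h2 : Equiv.swap 0 j i ≠ 0 := by
          intro h3
          apply h
          have := congrArg (Equiv.swap 0 j) h3
          rwa [Equiv.swap_apply_self, Equiv.swap_apply_left] at this
        simp [axis, h, h2]
    ext x
    constructor
    · rintro ⟨t, ht, rfl⟩
      exact ⟨axis 3 t, ⟨t, ht, rfl⟩, key t⟩
    · rintro ⟨_, ⟨t, ht, rfl⟩, rfl⟩
      exact ⟨t, ht, key t⟩

/-- a partition of `ℤ³` into indexed pieces gives a tiling -/
theorem tiles_of {ι : Type} (T : Set ℤ) (C : Set ι) (P : ι → Set (Fin 3 → ℤ))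
    (h1 : ∀ c ∈ C, IsCopy 3 T (P c)) (h2 : ∀ x, ∃! c, c ∈ C ∧ x ∈ P c) : Tiles 3 T := by
  refine ⟨P '' C, ?_, ?_, ?_⟩
  · rintro _ ⟨c, hc, rfl⟩
    exact h1 c hc
  · rintro _ ⟨c, hc, rfl⟩ _ ⟨c', hc', rfl⟩ hne
    simp only [Function.onFun, id]
    rw [Set.disjoint_left]
    intro x hx hx'
    apply hne
    rw [(h2 x).unique ⟨hc, hx⟩ ⟨hc', hx'⟩]
  · rw [Set.eq_univ_iff_forall]
    intro x
    obtain ⟨c, ⟨hc, hx⟩, -⟩ := h2 x
    exact ⟨P c, ⟨c, hc, rfl⟩, hx⟩

/-- intervals tile `ℤ³` -/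
theorem tiles_interval (a : ℤ) (m : ℤ) (hm : 1 ≤ m) : Tiles 3 (Set.Ico a (a + m)) := by
  refine tiles_of _ {v : Fin 3 → ℤ | m ∣ v 0}
    (fun v => {x | ∃ t ∈ Set.Ico a (a + m), x = v + (1 * (t - a)) • (Pi.single 0 (1 : ℤ) : Fin 3 → ℤ)})
    (fun v _ => copy_of _ v 1 (Or.inl rfl) 0 a) ?_
  intro x
  have hm0 : m ≠ 0 := by omega
  refine ⟨Function.update x 0 (m * (x 0 / m)), ⟨?_, a + x 0 % m, ?_, ?_⟩, ?_⟩
  · simp
  · constructor
    · have := Int.emod_nonneg (x 0) hm0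
      omega
    · have := Int.emod_lt_of_pos (x 0) (by omega : 0 < m)
      omega
  · funext i
    by_cases h : i = 0
    · subst h
      have := Int.emod_add_mul_ediv (x 0) m
      simp
      linarith
    · simp [h]
  · rintro v ⟨⟨q, hq⟩, t, ⟨ht1, ht2⟩, hx⟩
    have h0 := congrFun hx 0
    simp at h0
    have hdiv : x 0 / m = q := by
      rw [h0, hq]
      rw [Int.add_comm, Int.add_mul_ediv_left _ _ hm0, Int.ediv_eq_zero_of_lt (by omega) (by omega)]
      simp
    funext i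
    by_cases h : i = 0
    · subst h
      simp [hdiv, hq]
    · have := congrFun hx i
      simp [h] at this
      simp [h, this]

/-- **Theorem.** Every interval of integers with one point removed, `{a, …, b} \ {c}` with
`a ≤ c ≤ b` and `a < b`, tiles `ℤ³`. -/
theorem three (a b c : ℤ) (hac : a ≤ c) (hcb : c ≤ b) (hab : a < b) :
    Tiles 3 (Set.Icc a b \ {c}) := by
  rcases eq_or_lt_of_le hac with rfl | hac
  · have : Set.Icc a b \ {a} = Set.Ico (a + 1) (a + 1 + (b - a)) := by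
      ext x
      simp only [Set.mem_sdiff, Set.mem_Icc, Set.mem_singleton_iff, Set.mem_Ico]
      omega
    rw [this]
    exact tiles_interval _ _ (by omega)
  rcases eq_or_lt_of_le hcb with rfl | hcb
  · have : Set.Icc a c \ {c} = Set.Ico a (a + (c - a)) := by
      ext x
      simp only [Set.mem_sdiff, Set.mem_Icc, Set.mem_singleton_iff, Set.mem_Ico]
      omega
    rw [this]
    exact tiles_interval _ _ (by omega)
  obtain ⟨k, hk⟩ := Int.eq_ofNat_of_zero_le (show 0 ≤ c - a by omega)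
  obtain ⟨l, hl⟩ := Int.eq_ofNat_of_zero_le (show 0 ≤ b - c by omega)
  obtain ⟨C, hC, h⟩ := Pool.Agent.S12159.result k l (by omega) (by omega)
  refine tiles_of _ C (fun c' => {x | ∃ t ∈ Set.Icc a b \ {c},
    x = c'.1 + (c'.2.1 * (t - a)) • (Pi.single c'.2.2 (1 : ℤ) : Fin 3 → ℤ)})
    (fun c' hc' => copy_of _ c'.1 c'.2.1 (hC c' hc') c'.2.2 a) ?_
  have key : ∀ (x : Fin 3 → ℤ) (c' : (Fin 3 → ℤ) × ℤ × Fin 3),
      (∃ i : ℤ, ((0 ≤ i ∧ i < (k : ℤ)) ∨ ((k : ℤ) < i ∧ i ≤ (k : ℤ) + (l : ℤ))) ∧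
        x = c'.1 + (c'.2.1 * i) • (Pi.single c'.2.2 (1 : ℤ) : Fin 3 → ℤ)) ↔
      x ∈ {x | ∃ t ∈ Set.Icc a b \ {c},
        x = c'.1 + (c'.2.1 * (t - a)) • (Pi.single c'.2.2 (1 : ℤ) : Fin 3 → ℤ)} := by
    intro x c'
    constructor
    · rintro ⟨i, hi, hx⟩
      refine ⟨a + i, ?_, ?_⟩
      · simp only [Set.mem_sdiff, Set.mem_Icc, Set.mem_singleton_iff]
        omega
      · rw [hx, add_sub_cancel_left]
    · rintro ⟨t, ht, hx⟩
      simp only [Set.mem_sdiff, Set.mem_Icc, Set.mem_singleton_iff] at ht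
      exact ⟨t - a, by omega, hx⟩
  intro x
  obtain ⟨c', ⟨h1, h2⟩, h3⟩ := h x
  exact ⟨c', ⟨h1, (key x c').1 h2⟩, fun y hy => h3 y ⟨hy.1, (key x y).2 hy.2⟩⟩

/-- **Theorem.** There is an integer `d ≥ 1`, namely `d = 3`, such that every interval of integers
with one point removed, `{a, …, b} \ {c}` with `a ≤ c ≤ b` and `a < b`, tiles `ℤ^d`. -/
theorem result : ∃ (d : ℕ) (_ : NeZero d), d = 3 ∧ ∀ a b c : ℤ, a ≤ c → c ≤ b → a < b →
    Tiles d (Set.Icc a b \ {c}) :=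
  ⟨3, inferInstance, rfl, three⟩

end Pool.Agent.Results.MP_3bfddb_co.AllOnePointRemoved
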